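import Pool.Agent.Helper70.OB.AllS

/-!
# The structure of the maximising measure of a Euclidean ball

`B_R ⊂ ℝⁿ`, `n ≥ 2`, `w` its maximising measure, `σ_r` the uniform probability measure on the sphere
`S_r` of radius `r` about `0`.

* Exact threshold: `w = σ_R` if and only if `R ≤ R_c(n)`, where `R_c` is the solution of
  `∬ e^{-|x-y|} dσ_R dσ_R = e^{-R}`.
* For all `n ≥ 2`, `R > 0` the boundary sphere lies in the support and is isolated in it.
* `n = 2, 3`: for every `R > R_c` the support is a smaller closed ball together with the boundary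
  sphere.
* `n ≥ 4`: just above `R_c` the measure lives on exactly two spheres; for `R > L(n)` the support
  contains the ball `B_{R-L}` and is not even a finite union of spheres, closed shells and balls.
* odd `n ≥ 5`: for every `R` the measure `w` is either a finite combination of measures `σ_r`, or the
  sum of a multiple of Lebesgue measure on a ball `B_b` and of INFINITELY many `m_i σ_{r_i}` whose
  radii decrease to `b`; for `R > L` the second case holds with `b ≥ R - L`.

Idea of the proof.  With `τ = D_max w`, `V_0 = ∫ e^{-|x-y|} dτ(y) - 1` is radial, `V_0 ≥ 0` on `B_R` and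
`V_0 = 0` on the support.  The functions `V_j = (1-Δ)^j V_0` are (up to constants) potentials with the
kernels `ω_j`, `ω_0(s) = e^{-s}`, `ω_{j+1} = -ω_j'/s`; for `n = 2k-1` one has `(1-Δ) V_{k-1} = n! ω_n τ - 1`.
At an accumulation point of the radii of the support all the `V_j` vanish, and an energy
identity shows that `V_0 = 0` inside.  If only finitely many spheres lay outside the solid ball,
counting zeros of `V_0, V_1, …` with Rolle's theorem (each step gains one zero at the inner end and
one at infinity) would give a contradiction as soon as `n ≥ 4`.  For `n = 2, 3` the function `V_1` is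
subharmonic in gaps of the support, which excludes gaps.  The solid ball for large `R` comes from
a local energy method for general compact sets (hand-in `BulkUniform`).

Definitions are in `Pool.Agent.Helper70.MM.Defs`, `Pool.Agent.Helper70.MM.Stmt`,
`Pool.Agent.Helper67.MaxMeas.Defs`, and `BallAndSpheres`, `FiniteSpheres`, `IsFinUnionShells` in
`Pool.Agent.Helper70.OB.Goals`, `Goals2`, `GoalsE`.
-/

open MeasureTheory Set Metric
open scoped ENNReal
open Pool.Agent.Helper70.OB

namespace Pool.Agent.Results.MP_91ee6f_gt.BallStructure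

/-- For every `n ≥ 2` there are `Rc ≤ L` such that for every `R > 0` the ball `B_R ⊂ ℝⁿ` has exactly
one maximising measure `w`, and: `w = σ_R` for `R ≤ Rc`; the boundary sphere belongs to the
support and is isolated in it; for `n ≤ 3`, `R > Rc` the support is a solid
ball plus the boundary sphere; for `n ≥ 4` there are exactly two spheres just above `Rc`, and for
`R > L` the support contains `B_{R-L}` and is not a finite union of closed shells; for odd `n ≥ 5` the
measure is a finite sum of sphere measures, or uniform on a solid ball plus infinitely many sphere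
measures. -/
theorem result (n : ℕ) (hn : 2 ≤ n) :
    ∃ Rc L : ℝ, (n : ℝ) - 1 ≤ Rc ∧ Rc ≤ 2 * n * Real.log 5 ∧ (n = 2 → Rc < 17 / 10) ∧
      sphEnergy n Rc = Real.exp (-Rc) ∧ Rc ≤ L ∧
      (∀ R : ℝ, 0 < R → (sphEnergy n R ≤ Real.exp (-R) ↔ R ≤ Rc) ∧
        ∃ (w : Measure (En n)) (D : ℝ), IsTheMaximising (cBall n R) w ∧
          MaxDiversity (cBall n R) D ∧
          (R ≤ Rc → w = sphUnif n R ∧ w.support = sphere 0 R ∧ D = (sphEnergy n R)⁻¹) ∧
          (Rc < R → sphere 0 R ⊆ w.support ∧ (w.support ∩ ball 0 R).Nonempty) ∧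
          (∃ δ : ℝ, 0 < δ ∧ ∀ x ∈ w.support, ‖x‖ ≤ R - δ ∨ ‖x‖ = R) ∧
          (n ≤ 3 → Rc < R → ∃ b : ℝ, 0 < b ∧ b < R ∧
            w.support = closedBall 0 b ∪ sphere 0 R) ∧
          (4 ≤ n → L < R → closedBall 0 (R - L) ⊆ w.support ∧ ¬ IsFinUnionShells w.support) ∧
          (5 ≤ n → Odd n → FiniteSpheres n R w ∨ ∃ b : ℝ, 0 ≤ b ∧ b < R ∧
            BallAndSpheres n R b
              ((n.factorial : ℝ) * (volume : Measure (En n)).real (ball 0 1) * D)⁻¹ w) ∧
          (5 ≤ n → Odd n → L < R → ∃ b : ℝ, R - L ≤ b ∧ b < R ∧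
            BallAndSpheres n R b
              ((n.factorial : ℝ) * (volume : Measure (En n)).real (ball 0 1) * D)⁻¹ w)) ∧
      (4 ≤ n → ∀ η : ℝ, 0 < η → ∃ ε : ℝ, 0 < ε ∧ ∀ R : ℝ, Rc < R → R < Rc + ε →
        ∃ (s m : ℝ) (w : Measure (En n)), 0 < s ∧ s < η ∧ s < R ∧ 0 < m ∧ m < 1 ∧
          w = ENNReal.ofReal (1 - m) • sphUnif n R + ENNReal.ofReal m • sphUnif n s ∧
          IsTheMaximising (cBall n R) w ∧ w.support = sphere 0 R ∪ sphere 0 s) :=
  Pool.Agent.Helper70.OB.ball_structure n hn

end Pool.Agent.Results.MP_91ee6f_gt.BallStructure
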