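import Pool.Agent.Helper67.MaxMeas.Final

/-!
# Maximising measures on Euclidean balls in dimension three

For a compact metric space `X` the potential of a measure is `(Kμ)(x) = ∫ e^{-d(x,y)} dμ(y)` and
`D_q(μ)` is the diversity of order `q`.  A maximising measure is a probability measure which
maximises `D_q` for all `q ∈ [0,∞]` (all definitions are in
`Pool.Agent.Helper67.MaxMeas.Defs`).

We determine the maximising measure of the closed ball `B_R ⊂ ℝ³` for every `R > 0`.
There is a critical radius `Rc ≈ 2.73`.  For `R ≤ Rc` the maximising measure is the uniform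
measure on the boundary sphere.  For `R > Rc` it is, up to normalisation,
`(1/8π) Leb|_{B_b} + b a σ_b + R A σ_R` with an explicit equation for `b ∈ (0,R)`; its support is
the solid ball `B_b` together with the sphere of radius `R`.  In particular the support is not
a finite union of spheres.
-/

open MeasureTheory Set Metric

namespace Pool.Agent.Results.MP_91ee6f_gt.BallThree

/-- For every `R > 0` the ball `B_R` in `ℝ³` has exactly one maximising measure `μ`, which is
determined explicitly: one sphere for `R ≤ Rc`, a solid ball plus spheres for `R > Rc`. -/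
theorem result :
    ∃ Rc : ℝ, 2 < Rc ∧ Rc < 3 ∧
      Real.exp (2 * Rc) = 1 + 2 * Rc + 2 * Rc ^ 2 * Real.exp Rc ∧
      ∀ R : ℝ, 0 < R → ∃ μ : Measure (closedBall (0 : E3) R),
        (∀ ν : Measure (closedBall (0 : E3) R), IsMaximising ν ↔ ν = μ) ∧
        (R ≤ Rc → OneSphereForm R μ) ∧
        (Rc < R → ¬ IsFiniteUnionOfSpheres (inSpace μ).support ∧
          ∃ b : ℝ, 0 < b ∧ b < R ∧ GapEq R b ∧
            (∀ b' : ℝ, 0 < b' → b' < R → GapEq R b' → b' = b) ∧ BallSphereForm R b μ) :=
  Pool.Agent.Helper67.MaxMeas.ball_three

end Pool.Agent.Results.MP_91ee6f_gt.BallThree
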