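import Pool.Agent.Helper70.MB.AllB

/-!
# The maximising measure deep inside a compact subset of `ℝⁿ`

For every dimension `n` there is a constant `L` such that for every nonempty compact `X ⊂ ℝⁿ`
every point of `X` whose distance to the complement of `X` is more than `L` lies in the support
of the maximising measure `w` of `X`.  At depth `r ≥ L` the measure `n! ω_n D_max(X) w` has a
density which differs from `1` by at most `C e^{-c r}`; for odd `n` it is exactly Lebesgue
measure.  In particular, for every `n` and every `R > L` the support of the maximising measure
of the ball `B_R` contains the ball `B_{R-L}` and is not a finite union of spheres: the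
conjecture that it is always a finite union of concentric spheres is false in every dimension.

Idea of the proof: with `τ = D_max w` and `V = ∫ e^{-|x-y|} dτ(y) - 1` one has `V ≥ 0` on `X`,
`V = 0` on the support of `τ` and `(1-Δ)^{(n+1)/2} V = n! ω_n τ - 1`.  Testing with `χ² V` gives
a local energy inequality `‖χ V‖² + ∫ χ² V ≤ (errors of lower order)` for this obstacle problem of
order `n + 1`.  An iteration over the scales (first growing scales, with the a priori bound,
then shrinking scales with superlinear gain) shows that `V` vanishes near points of depth `L`.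
The operator is local for odd `n`; for even `n` its nonlocal part is controlled by the heat kernel.
Definitions are in `Pool.Agent.Helper70.MM.Defs`, `Pool.Agent.Helper70.MM.Stmt` and
`Pool.Agent.Helper67.MaxMeas.Defs`.
-/

open MeasureTheory Set Metric
open scoped ENNReal

namespace Pool.Agent.Results.MP_91ee6f_gt.BulkUniform

/-- For every `n ≥ 1` there are `L, C, c > 0` such that every nonempty compact `X ⊂ ℝⁿ` has exactly
one maximising measure `w`, and with `D = D_max(X)`: every `x` with `closedBall x L ⊆ X` lies in the
support of `w`; for `r ≥ L` and every measurable set `A` of points `x` with `closedBall x r ⊆ X`,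
`|n! ω_n D w(A) - vol A| ≤ C e^{-c r} vol A`, with equality `n! ω_n D w(A) = vol A` for odd `n`.  For
`R > L` the support for the ball `B_R` contains `B_{R-L}` and is not a finite union of spheres; for
the cube `[0,ℓ]ⁿ` it contains `[L, ℓ-L]ⁿ`. -/
theorem result (n : ℕ) (hn : 1 ≤ n) :
    ∃ L C c : ℝ, 0 < L ∧ 0 < C ∧ 0 < c ∧
      (∀ X : Set (En n), IsCompact X → X.Nonempty →
        ∃ (w : Measure (En n)) (D : ℝ), IsTheMaximising X w ∧ MaxDiversity X D ∧
          (∀ x : En n, closedBall x L ⊆ X → x ∈ w.support) ∧
          ∀ (r : ℝ) (A : Set (En n)), L ≤ r → MeasurableSet A →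
            (∀ x ∈ A, closedBall x r ⊆ X) →
            |(n.factorial : ℝ) * (volume : Measure (En n)).real (ball 0 1) * D * w.real A -
              (volume : Measure (En n)).real A| ≤
              C * Real.exp (-(c * r)) * (volume : Measure (En n)).real A ∧
            (Odd n → (n.factorial : ℝ) * (volume : Measure (En n)).real (ball 0 1) * D *
              w.real A = (volume : Measure (En n)).real A)) ∧
      (∀ R : ℝ, L < R → ∀ w : Measure (En n), IsTheMaximising (cBall n R) w →
        closedBall 0 (R - L) ⊆ w.support ∧ ¬ IsFinUnionSpheres w.support) ∧
      (∀ (ℓ : ℝ) (w : Measure (En n)), IsTheMaximising (cube n ℓ) w →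
        ∀ x : En n, (∀ i, L ≤ x i ∧ x i ≤ ℓ - L) → x ∈ w.support) :=
  Pool.Agent.Helper70.MB.bulk n hn

end Pool.Agent.Results.MP_91ee6f_gt.BulkUniform
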