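import Pool.Agent.Helper70.CU.MonL

/-!
# The maximising measure of a Euclidean cube: when are the vertices optimal?

When is the uniform probability measure on the `2ⁿ` vertices of the cube `[0,ℓ]ⁿ` its maximising
measure?  A necessary condition is `s_n(ℓ) ≥ 1`, where
`s_n(ℓ) = ∑_{m<n} C(n-1,m) e^{-√(m+1) ℓ}/√(m+1)`.  It is sufficient (so this is the exact threshold,
for all `ℓ > 0`) for the square, the three-dimensional cube and all `n ≥ 10^7`.  In every
dimension `n ≥ 4` the vertices are optimal for `ℓ ≤ max 1 (√n/6)` and not for `ℓ ≥ 2√n`, and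
the property is monotone: it passes from `(n,ℓ)` to `(m,ℓ')` for `m ≥ n`, `0 < ℓ' ≤ ℓ`.

Idea of the proof.  Writing `e^{-|x|}` as a mixture of Gaussians, the potential of the vertices is a
mixture of products of functions of one coordinate, and a single crossing argument shows that the
minimum of the potential on the cube is attained on the edges at a vertex, and that this property
is monotone in `n` and in `ℓ`.  On an edge `[0,ℓ]` the potential is
`∑ C(n-1,j) (e^{-√(jℓ²+s²)} + e^{-√(jℓ²+(ℓ-s)²)})`: for `ℓ ≤ √n/6` it is concave (the terms with small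
`j` are few, by a Chernoff bound); for large `n` and `ℓ ≥ 500` one may pass (monotonicity) to the
smallest `n` with `s_n(ℓ) ≥ 1`, where the terms with `j ≤ ℓ²/15` are negligible and the others have
derivatives which can be compared with the value at `s = 0`.  Definitions are in
`Pool.Agent.Helper70.MM.Defs`, `Pool.Agent.Helper70.MM.Stmt` and `Pool.Agent.Helper67.MaxMeas.Defs`.
-/

open MeasureTheory Set Metric
open scoped ENNReal

namespace Pool.Agent.Results.MP_91ee6f_gt.CubeVertices

/-- For `n ≥ 2` and `ℓ > 0` the cube `[0,ℓ]ⁿ` has exactly one maximising measure `w`.  If `w` is the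
uniform measure on the vertices then `vertSlope n ℓ ≥ 1` and `ℓ < 2√n`; if `n ≤ 3` or `n ≥ 10^7`
and `vertSlope n ℓ ≥ 1`, then `w` is that measure; for `n ≥ 4` it is for all
`ℓ ≤ max 1 (√n/6)`.  If it is, then so it is for `[0,ℓ']ᵐ`, `m ≥ n`, `0 < ℓ' ≤ ℓ`, and the support
and the maximum diversity are as stated. -/
theorem result (n : ℕ) (hn : 2 ≤ n) (ℓ : ℝ) (hℓ : 0 < ℓ) :
    ∃ w : Measure (En n), IsTheMaximising (cube n ℓ) w ∧
      (w = vertUnif n ℓ → 1 ≤ vertSlope n ℓ ∧ ℓ < 2 * Real.sqrt n) ∧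
      (n ≤ 3 ∨ 10 ^ 7 ≤ n → 1 ≤ vertSlope n ℓ → w = vertUnif n ℓ) ∧
      (4 ≤ n → ℓ ≤ max 1 (Real.sqrt n / 6) → w = vertUnif n ℓ) ∧
      (w = vertUnif n ℓ →
        (∀ (m : ℕ) (ℓ' : ℝ), n ≤ m → 0 < ℓ' → ℓ' ≤ ℓ →
          IsTheMaximising (cube m ℓ') (vertUnif m ℓ')) ∧
        w.support = range (vert n ℓ) ∧
        MaxDiversity (cube n ℓ) (2 ^ n /
          ∑ k ∈ Finset.range (n + 1), (n.choose k : ℝ) * Real.exp (-(Real.sqrt k * ℓ)))) :=
  Pool.Agent.Helper70.CU.cube_final2 n hn ℓ hℓ

end Pool.Agent.Results.MP_91ee6f_gt.CubeVertices
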